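import Pool.Agent.Lib_MP_0a2297_al.Suf

/-!
# Submonoids of the free group of rank two which contain a basis (MP_0a2297_al)

`M` is the submonoid of the free group on two letters generated by the two letters and by finitely many elements
`p⁻¹ h q⁻¹` (reduced as written; `p`, `h`, `q` positive words, `h` not empty). It embeds in a free monoid if and only if
the list `G` of the triples `(p, h, q)` satisfies one of three explicit conditions on words.
-/

set_option autoImplicit false

namespace Pool.Agent.EmbFree

theorem pos_mem (G : List Gen) (w : List Bool) : pos w ∈ Mon G := by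
  induction w with
  | nil => exact Submonoid.one_mem _
  | cons c w ih =>
    rw [pos_cons]
    exact Submonoid.mul_mem _ (Submonoid.subset_closure (Or.inl ⟨c, rfl⟩)) ih

theorem val_mem {G : List Gen} {g : Gen} (hg : g ∈ G) : g.val ∈ Mon G :=
  Submonoid.subset_closure (Or.inr ⟨g, hg, rfl⟩)

theorem toList_f {G : List Gen} {B : Type} (f : Mon G →* FreeMonoid B) (w : List Bool) :
    FreeMonoid.toList (f ⟨pos w, pos_mem G w⟩) =
      W (fun c => FreeMonoid.toList (f ⟨pos [c], pos_mem G [c]⟩)) w := by
  induction w with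
  | nil =>
    have h : (⟨pos [], pos_mem G []⟩ : Mon G) = 1 := Subtype.ext rfl
    rw [h, map_one]
    rfl
  | cons c w ih =>
    have h : (⟨pos (c :: w), pos_mem G (c :: w)⟩ : Mon G) =
        ⟨pos [c], pos_mem G [c]⟩ * ⟨pos w, pos_mem G w⟩ := by
      apply Subtype.ext
      show pos (c :: w) = pos [c] * pos w
      rw [← pos_append]
      rfl
    rw [h, map_mul, FreeMonoid.toList_mul, ih, W_cons]

theorem nec_of_embeds {G : List Gen} (hG : ∀ g ∈ G, g.Red) (h : Embeds (Mon G)) :
    Crit1 G ∨ Crit2 G ∨ Crit2 (G.map Gen.mirror) := by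
  obtain ⟨B, f, hf⟩ := h
  refine nec (α := fun c => FreeMonoid.toList (f ⟨pos [c], pos_mem G [c]⟩)) ?_ hG ?_
  · intro c hc
    have h1 : FreeMonoid.toList (f ⟨pos [c, !c], pos_mem G _⟩) =
        FreeMonoid.toList (f ⟨pos [!c, c], pos_mem G _⟩) := by
      rw [toList_f, toList_f, W_cons, W_single, W_cons, W_single]
      exact hc
    have h2 := congrArg Subtype.val (hf (FreeMonoid.toList.injective h1))
    have h3 := pos_injective h2
    cases c <;> simp at h3
  · intro g hg
    refine ⟨FreeMonoid.toList (f ⟨g.val, val_mem hg⟩), ?_⟩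
    have h1 : (⟨pos g.p, pos_mem G _⟩ : Mon G) * ⟨g.val, val_mem hg⟩ * ⟨pos g.q, pos_mem G _⟩ =
        ⟨pos g.h, pos_mem G _⟩ := by
      apply Subtype.ext
      show pos g.p * g.val * pos g.q = pos g.h
      unfold Gen.val
      group
    have h2 := congrArg (fun x => FreeMonoid.toList (f x)) h1
    rw [map_mul f, map_mul f, FreeMonoid.toList_mul, FreeMonoid.toList_mul, toList_f, toList_f,
      toList_f] at h2
    exact h2

end Pool.Agent.EmbFree

/-- The submonoid `Mon G` of the free group of rank two, generated by the two letters and the elements `p⁻¹ h q⁻¹` of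
the list `G` (each reduced as written), embeds in a free monoid if and only if one of the three conditions holds. -/
theorem Pool.Agent.Results.MP_0a2297_al.BasisPlus.result (G : List Pool.Agent.EmbFree.Gen)
    (hG : ∀ g ∈ G, g.Red) :
    Pool.Agent.EmbFree.Embeds (Pool.Agent.EmbFree.Mon G) ↔
      Pool.Agent.EmbFree.Crit1 G ∨ Pool.Agent.EmbFree.Crit2 G ∨
        Pool.Agent.EmbFree.Crit2 (G.map Pool.Agent.EmbFree.Gen.mirror) := by
  constructor
  · exact Pool.Agent.EmbFree.nec_of_embeds hG
  · rintro (h | h | h)
    · exact Pool.Agent.EmbFree.suf1 hG h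
    · exact Pool.Agent.EmbFree.suf2 hG h
    · exact Pool.Agent.EmbFree.suf3 hG h
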